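import Pool.Agent.Helper57.CH.Frames3
import Pool.Agent.Helper43.SC.Br1
import Pool.Agent.Helper37.SC.Fej

/-! (W2) a box hit too often gives a large exponential sum. -/

set_option autoImplicit false

namespace Pool.Agent.Helper43.CH

open Finset
open Pool.Agent.Helper7.SC (e)
open Pool.Agent.Helper43.SC (maj_bdd)
open Pool.Agent.Helper37.SC (e_add conj_e sum_e)

/-- the symmetrised coefficients -/
noncomputable def sy (c : ℤ → ℂ) (k : ℤ) : ℂ := (c k + (starRingEnd ℂ) (c (-k))) / 2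

lemma sy_zero (c : ℤ → ℂ) : sy c 0 = ((c 0).re : ℂ) := by
  unfold sy
  rw [neg_zero, Complex.add_conj]
  push_cast
  ring

lemma norm_sy (c : ℤ → ℂ) (M : ℝ) (hc : ∀ k, ‖c k‖ ≤ M) (k : ℤ) : ‖sy c k‖ ≤ M := by
  unfold sy
  rw [norm_div, Complex.norm_two]
  have h1 : ‖c k + (starRingEnd ℂ) (c (-k))‖ ≤ M + M := by
    refine (norm_add_le _ _).trans (add_le_add (hc k) ?_)
    rw [Complex.norm_conj]
    exact hc _
  linarith

lemma sum_sy (H : ℕ) (c : ℤ → ℂ) (y : ℝ) :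
    ∑ k ∈ Icc (-(H : ℤ)) H, sy c k * e (k * y) =
      (((∑ k ∈ Icc (-(H : ℤ)) H, c k * e (k * y)).re : ℝ) : ℂ) := by
  obtain ⟨F, hF⟩ : ∃ F : ℂ, F = ∑ k ∈ Icc (-(H : ℤ)) H, c k * e (k * y) := ⟨_, rfl⟩
  have h1 : ((F.re : ℝ) : ℂ) = (F + (starRingEnd ℂ) F) / 2 := by
    rw [Complex.add_conj]
    push_cast
    ring
  have h2 : (starRingEnd ℂ) F = ∑ k ∈ Icc (-(H : ℤ)) H, (starRingEnd ℂ) (c (-k)) * e (k * y) := by
    rw [hF, map_sum]
    refine Finset.sum_nbij' (fun k => -k) (fun k => -k) ?_ ?_ ?_ ?_ ?_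
    · intro k hk
      rw [Finset.mem_Icc] at hk ⊢
      omega
    · intro k hk
      rw [Finset.mem_Icc] at hk ⊢
      omega
    · intro k _
      exact neg_neg k
    · intro k _
      exact neg_neg k
    · intro k _
      rw [map_mul, conj_e, neg_neg]
      congr 2
      push_cast
      ring
  rw [← hF, h1, h2, hF, ← Finset.sum_add_distrib, Finset.sum_div]
  refine Finset.sum_congr rfl fun k _ => ?_
  unfold sy
  ring

lemma re_zero_nonneg (H : ℕ) (c : ℤ → ℂ)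
    (hpos : ∀ y : ℝ, 0 ≤ (∑ k ∈ Icc (-(H : ℤ)) H, c k * e (k * y)).re) : 0 ≤ (c 0).re := by
  have h1 : ∑ j ∈ range (H + 1), ∑ k ∈ Icc (-(H : ℤ)) H, c k * e (k * ((j : ℝ) / ((H + 1 : ℕ) : ℝ)))
      = c 0 * ((H + 1 : ℕ) : ℂ) := by
    rw [Finset.sum_comm]
    have h2 : ∀ k ∈ Icc (-(H : ℤ)) H,
        ∑ j ∈ range (H + 1), c k * e (k * ((j : ℝ) / ((H + 1 : ℕ) : ℝ))) =
        if k = 0 then c 0 * ((H + 1 : ℕ) : ℂ) else 0 := by
      intro k hk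
      rw [Finset.mem_Icc] at hk
      rw [← Finset.mul_sum, sum_e (H + 1) (by omega) (show |k| < ((H + 1 : ℕ) : ℤ) by
        rw [abs_lt]
        push_cast
        omega)]
      by_cases h : k = 0
      · rw [if_pos h, if_pos h, h]
      · rw [if_neg h, if_neg h, mul_zero]
    rw [Finset.sum_congr rfl h2, Finset.sum_ite_eq', if_pos]
    rw [Finset.mem_Icc]
    omega
  have h3 : 0 ≤ (c 0 * ((H + 1 : ℕ) : ℂ)).re := by
    rw [← h1, Complex.re_sum]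
    exact Finset.sum_nonneg fun j _ => hpos _
  rw [Complex.mul_re, Complex.natCast_re, Complex.natCast_im, mul_zero, sub_zero] at h3
  have h4 : (0 : ℝ) < ((H + 1 : ℕ) : ℝ) := by positivity
  exact (mul_nonneg_iff_of_pos_right h4).1 h3

/-- the product of three trigonometric polynomials -/
lemma prod3 (H : ℕ) (c₁ c₂ c₃ : ℤ → ℂ) (y₁ y₂ y₃ : ℝ) :
    ((((∑ k ∈ Icc (-(H : ℤ)) H, c₁ k * e (k * y₁)).re *
      (∑ k ∈ Icc (-(H : ℤ)) H, c₂ k * e (k * y₂)).re *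
      (∑ k ∈ Icc (-(H : ℤ)) H, c₃ k * e (k * y₃)).re : ℝ)) : ℂ) =
    ∑ k ∈ Icc (-(H : ℤ)) H ×ˢ (Icc (-(H : ℤ)) H ×ˢ Icc (-(H : ℤ)) H),
      sy c₁ k.1 * sy c₂ k.2.1 * sy c₃ k.2.2 * e (k.1 * y₁ + k.2.1 * y₂ + k.2.2 * y₃) := by
  rw [Complex.ofReal_mul, Complex.ofReal_mul, ← sum_sy, ← sum_sy, ← sum_sy, Finset.sum_product,
    Finset.sum_mul_sum, Finset.sum_mul]
  refine Finset.sum_congr rfl fun k₁ _ => ?_
  rw [Finset.sum_product, Finset.sum_mul]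
  refine Finset.sum_congr rfl fun k₂ _ => ?_
  rw [Finset.mul_sum]
  refine Finset.sum_congr rfl fun k₃ _ => ?_
  rw [e_add, e_add]
  ring

/-- one of the four directions -/
lemma direction (z : ℂ) : ∃ o ∈ ({1, -1, Complex.I, -Complex.I} : Finset ℂ),
    ‖z‖ / 2 ≤ (o * z).re := by
  have h1 := Complex.norm_le_abs_re_add_abs_im z
  by_cases h2 : ‖z‖ / 2 ≤ |z.re|
  · rcases le_total 0 z.re with h3 | h3
    · refine ⟨1, by simp, ?_⟩
      rw [one_mul]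
      rwa [abs_of_nonneg h3] at h2
    · refine ⟨-1, by simp, ?_⟩
      rw [neg_mul, one_mul, Complex.neg_re]
      rwa [abs_of_nonpos h3] at h2
  · have h4 : ‖z‖ / 2 ≤ |z.im| := by
      rw [not_le] at h2
      linarith
    rcases le_total 0 z.im with h3 | h3
    · refine ⟨-Complex.I, by simp, ?_⟩
      rw [abs_of_nonneg h3] at h4
      simpa using h4
    · refine ⟨Complex.I, by simp, ?_⟩
      rw [abs_of_nonpos h3] at h4
      simpa using h4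

/-- the indicator of the box is at most the product -/
lemma ind3 (p q r : Prop) [Decidable p] [Decidable q] [Decidable r] (a b c : ℝ)
    (ha : (if p then (1 : ℝ) else 0) ≤ a) (hb : (if q then (1 : ℝ) else 0) ≤ b)
    (hc : (if r then (1 : ℝ) else 0) ≤ c) :
    (if p ∧ q ∧ r then (1 : ℝ) else 0) ≤ a * b * c := by
  have h0 : ∀ (s : Prop) [Decidable s], (0 : ℝ) ≤ if s then (1 : ℝ) else 0 := by
    intro s _
    split_ifs <;> norm_num
  have ha0 := (h0 p).trans ha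
  have hb0 := (h0 q).trans hb
  have hc0 := (h0 r).trans hc
  by_cases h : p ∧ q ∧ r
  · rw [if_pos h]
    rw [if_pos h.1] at ha
    rw [if_pos h.2.1] at hb
    rw [if_pos h.2.2] at hc
    have h1 : 1 ≤ a * b := one_le_mul_of_one_le_of_one_le ha hb
    exact one_le_mul_of_one_le_of_one_le h1 hc
  · rw [if_neg h]
    exact mul_nonneg (mul_nonneg ha0 hb0) hc0

theorem stM3 : Pool.Agent.Helper57.CH.StM3 := by
  intro L hL ε hε
  have hL0 : (0 : ℝ) < L := by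
    have : 0 < L := by omega
    exact_mod_cast this
  obtain ⟨θ, hθ⟩ : ∃ θ : ℝ, θ = min 1 (ε / 28) := ⟨_, rfl⟩
  have hθ0 : 0 < θ := by rw [hθ]; exact lt_min one_pos (by positivity)
  have hθ1 : θ ≤ 1 := by rw [hθ]; exact min_le_left _ _
  have hθ2 : θ ≤ ε / 28 := by rw [hθ]; exact min_le_right _ _
  obtain ⟨H, M, c, hH, hM, hc, hc0, hmaj⟩ := maj_bdd L hL (θ / L) (by positivity)
  have hM0 : 0 < M := by linarith
  obtain ⟨N, hN⟩ : ∃ N : ℝ, N = (2 * (H : ℝ) + 1) ^ 3 := ⟨_, rfl⟩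
  have hN0 : 0 < N := by rw [hN]; positivity
  obtain ⟨κ', hκ'⟩ : ∃ κ' : ℝ, κ' = ε / (4 * (L : ℝ) ^ 3 * M ^ 3 * N) := ⟨_, rfl⟩
  have hκ0 : 0 < κ' := by rw [hκ']; positivity
  refine ⟨H, min 1 (κ' / 2), hH, lt_min one_pos (by positivity), min_le_left _ _, ?_⟩
  intro m y₁ y₂ y₃ u v w hu hv hw hhit
  have hm0 : (0 : ℝ) ≤ m := Nat.cast_nonneg m
  -- nonnegativity
  have hpos : ∀ d, ∀ y : ℝ, 0 ≤ (∑ k ∈ Icc (-(H : ℤ)) H, c d k * e (k * y)).re := by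
    intro d y
    refine le_trans ?_ (hmaj d y)
    split_ifs <;> norm_num
  have hc00 : ∀ d, 0 ≤ (c d 0).re := fun d => re_zero_nonneg H (c d) (hpos d)
  have hcL : ∀ d, (c d 0).re ≤ (1 + θ) / L := by
    intro d
    refine (hc0 d).trans (le_of_eq ?_)
    ring
  -- the sum
  obtain ⟨I3, hI3⟩ : ∃ I3 : Finset (ℤ × ℤ × ℤ), I3 =
      Icc (-(H : ℤ)) H ×ˢ (Icc (-(H : ℤ)) H ×ˢ Icc (-(H : ℤ)) H) := ⟨_, rfl⟩
  obtain ⟨C, hC⟩ : ∃ C : ℤ × ℤ × ℤ → ℂ, C = fun k =>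
      sy (c u) k.1 * sy (c v) k.2.1 * sy (c w) k.2.2 := ⟨_, rfl⟩
  obtain ⟨E, hE⟩ : ∃ E : ℤ × ℤ × ℤ → ℂ, E = fun k =>
      ∑ B : Fin m, e (k.1 * y₁ B + k.2.1 * y₂ B + k.2.2 * y₃ B) := ⟨_, rfl⟩
  have h0I : ((0, 0, 0) : ℤ × ℤ × ℤ) ∈ I3 := by
    rw [hI3, Finset.mem_product, Finset.mem_product, Finset.mem_Icc]
    refine ⟨⟨?_, ?_⟩, ⟨?_, ?_⟩, ⟨?_, ?_⟩⟩ <;> omega
  have hsum : (∑ B : Fin m, (if Nat.floor ((L : ℝ) * Int.fract (y₁ B)) = u ∧
      Nat.floor ((L : ℝ) * Int.fract (y₂ B)) = v ∧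
      Nat.floor ((L : ℝ) * Int.fract (y₃ B)) = w then (1 : ℝ) else 0)) ≤
      (∑ k ∈ I3, C k * E k).re := by
    have h1 : (∑ k ∈ I3, C k * E k) = ∑ B : Fin m,
        ((((∑ k ∈ Icc (-(H : ℤ)) H, c u k * e (k * y₁ B)).re *
        (∑ k ∈ Icc (-(H : ℤ)) H, c v k * e (k * y₂ B)).re *
        (∑ k ∈ Icc (-(H : ℤ)) H, c w k * e (k * y₃ B)).re : ℝ)) : ℂ) := by
      rw [Finset.sum_congr rfl fun B _ => prod3 H (c u) (c v) (c w) (y₁ B) (y₂ B) (y₃ B),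
        Finset.sum_comm, hI3]
      refine Finset.sum_congr rfl fun k _ => ?_
      rw [hC, hE, Finset.mul_sum]
    rw [h1, Complex.re_sum]
    refine Finset.sum_le_sum fun B _ => ?_
    rw [Complex.ofReal_re]
    exact ind3 _ _ _ _ _ _ (hmaj u (y₁ B)) (hmaj v (y₂ B)) (hmaj w (y₃ B))
  rw [← Finset.add_sum_erase I3 _ h0I, Complex.add_re] at hsum
  -- the main term
  have hmain : (C (0, 0, 0) * E (0, 0, 0)).re ≤ (1 + ε / 4) / (L : ℝ) ^ 3 * m := by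
    have h1 : E (0, 0, 0) = (m : ℂ) := by
      rw [hE]
      have h2 : ∀ B ∈ (univ : Finset (Fin m)), e (((0 : ℤ) : ℝ) * y₁ B + ((0 : ℤ) : ℝ) * y₂ B +
          ((0 : ℤ) : ℝ) * y₃ B) = 1 := by
        intro B _
        unfold e
        simp
      show ∑ B : Fin m, e (((0 : ℤ) : ℝ) * y₁ B + ((0 : ℤ) : ℝ) * y₂ B + ((0 : ℤ) : ℝ) * y₃ B) = _
      rw [Finset.sum_congr rfl h2]
      simp
    have h3 : C (0, 0, 0) = (((c u 0).re * (c v 0).re * (c w 0).re : ℝ) : ℂ) := by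
      rw [hC]
      show sy (c u) 0 * sy (c v) 0 * sy (c w) 0 = _
      rw [sy_zero, sy_zero, sy_zero]
      push_cast
      rfl
    rw [h1, h3, Complex.re_ofReal_mul, Complex.natCast_re]
    refine mul_le_mul_of_nonneg_right ?_ hm0
    have h4 : (c u 0).re * (c v 0).re * (c w 0).re ≤
        (1 + θ) / L * ((1 + θ) / L) * ((1 + θ) / L) := by
      have hp : 0 ≤ (1 + θ) / L := by positivity
      exact mul_le_mul (mul_le_mul (hcL u) (hcL v) (hc00 v) hp) (hcL w) (hc00 w)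
        (mul_nonneg hp hp)
    refine h4.trans ?_
    have h5 : (1 + θ) / L * ((1 + θ) / L) * ((1 + θ) / L) = (1 + θ) ^ 3 / (L : ℝ) ^ 3 := by
      field_simp
    rw [h5]
    refine div_le_div_of_nonneg_right ?_ (by positivity)
    have h6 : (1 + θ) ^ 3 = 1 + 3 * θ + 3 * θ ^ 2 + θ ^ 3 := by ring
    have h7 : θ ^ 2 ≤ θ := by nlinarith
    have h8 : θ ^ 3 ≤ θ := by
      have : θ ^ 3 = θ * θ ^ 2 := by ring
      rw [this]
      nlinarith [sq_nonneg θ]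
    rw [h6]
    linarith
  -- the other terms
  have hrest : (∑ k ∈ I3.erase (0, 0, 0), C k * E k).re ≤
      M ^ 3 * ∑ k ∈ I3.erase (0, 0, 0), ‖E k‖ := by
    refine (Complex.re_le_norm _).trans ((norm_sum_le _ _).trans ?_)
    rw [Finset.mul_sum]
    refine Finset.sum_le_sum fun k _ => ?_
    rw [norm_mul]
    refine mul_le_mul_of_nonneg_right ?_ (norm_nonneg _)
    rw [hC]
    show ‖sy (c u) k.1 * sy (c v) k.2.1 * sy (c w) k.2.2‖ ≤ M ^ 3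
    rw [norm_mul, norm_mul]
    calc ‖sy (c u) k.1‖ * ‖sy (c v) k.2.1‖ * ‖sy (c w) k.2.2‖ ≤ M * M * M :=
          mul_le_mul (mul_le_mul (norm_sy _ M (hc u) _) (norm_sy _ M (hc v) _) (norm_nonneg _)
            hM0.le) (norm_sy _ M (hc w) _) (norm_nonneg _) (mul_nonneg hM0.le hM0.le)
      _ = M ^ 3 := by ring
  have hlow : ε / 4 / (L : ℝ) ^ 3 * m ≤ M ^ 3 * ∑ k ∈ I3.erase (0, 0, 0), ‖E k‖ := by
    have h1 := hhit.trans (hsum.trans (add_le_add hmain hrest))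
    have h2 : (1 + ε / 2) / (L : ℝ) ^ 3 * m = (1 + ε / 4) / (L : ℝ) ^ 3 * m +
        ε / 4 / (L : ℝ) ^ 3 * m := by ring
    linarith
  have hcard : (#(I3.erase (0, 0, 0)) : ℝ) ≤ N := by
    have h1 : #(I3.erase (0, 0, 0)) ≤ #I3 := Finset.card_le_card (Finset.erase_subset _ _)
    have h2 : #I3 = (2 * H + 1) ^ 3 := by
      rw [hI3, Finset.card_product, Finset.card_product, Int.card_Icc]
      have h3 : ((H : ℤ) + 1 - -(H : ℤ)).toNat = 2 * H + 1 := by omega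
      rw [h3]
      ring
    rw [h2] at h1
    rw [hN]
    exact_mod_cast h1
  have hsum2 : ∑ _k ∈ I3.erase (0, 0, 0), κ' * m ≤ ∑ k ∈ I3.erase (0, 0, 0), ‖E k‖ := by
    rw [Finset.sum_const, nsmul_eq_mul]
    have h1 : (#(I3.erase (0, 0, 0)) : ℝ) * (κ' * m) ≤ N * (κ' * m) :=
      mul_le_mul_of_nonneg_right hcard (by positivity)
    have h2 : M ^ 3 * (N * (κ' * m)) = ε / 4 / (L : ℝ) ^ 3 * m := by
      rw [hκ']
      field_simp
    rw [← h2] at hlow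
    exact h1.trans (le_of_mul_le_mul_left hlow (by positivity))
  have hne : (I3.erase (0, 0, 0)).Nonempty := by
    refine ⟨(1, 0, 0), Finset.mem_erase.2 ⟨?_, ?_⟩⟩
    · intro h
      have := congrArg Prod.fst h
      simp at this
    · rw [hI3]
      refine Finset.mem_product.2 ⟨Finset.mem_Icc.2 ⟨?_, ?_⟩,
        Finset.mem_product.2 ⟨Finset.mem_Icc.2 ⟨?_, ?_⟩, Finset.mem_Icc.2 ⟨?_, ?_⟩⟩⟩
      · show -(H : ℤ) ≤ 1
        omega
      · show (1 : ℤ) ≤ H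
        omega
      · show -(H : ℤ) ≤ 0
        omega
      · show (0 : ℤ) ≤ H
        omega
      · show -(H : ℤ) ≤ 0
        omega
      · show (0 : ℤ) ≤ H
        omega
  obtain ⟨k, hk, hkE⟩ := Finset.exists_le_of_sum_le hne hsum2
  obtain ⟨hk0, hkI⟩ := Finset.mem_erase.1 hk
  rw [hI3, Finset.mem_product, Finset.mem_product, Finset.mem_Icc, Finset.mem_Icc,
    Finset.mem_Icc] at hkI
  obtain ⟨⟨ha1, ha2⟩, ⟨hb1, hb2⟩, hd1, hd2⟩ := hkI
  obtain ⟨o, ho, hoE⟩ := direction (E k)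
  refine ⟨k.1, k.2.1, k.2.2, ?_, abs_le.2 ⟨ha1, ha2⟩, abs_le.2 ⟨hb1, hb2⟩, abs_le.2 ⟨hd1, hd2⟩,
    o, ho, ?_⟩
  · rintro ⟨h1, h2, h3⟩
    exact hk0 (Prod.ext h1 (Prod.ext h2 h3))
  · rw [← Complex.re_sum, ← Finset.mul_sum]
    have h1 : E k = ∑ B : Fin m, e (k.1 * y₁ B + k.2.1 * y₂ B + k.2.2 * y₃ B) := by rw [hE]
    rw [← h1]
    refine le_trans ?_ hoE
    have h2 : min 1 (κ' / 2) * m ≤ κ' / 2 * m :=
      mul_le_mul_of_nonneg_right (min_le_right _ _) hm0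
    linarith

end Pool.Agent.Helper43.CH
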